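import Mathlib

set_option autoImplicit false

/-!
# Project GL (helper661), part MUL, the commutative core (helper182): a unital surjective linear
isometry of spaces of continuous functions is multiplicative
-/

namespace Pool.Agent.Y182.GL

open Complex

section one

variable {X Y : Type*} [TopologicalSpace X] [CompactSpace X] [TopologicalSpace Y] [CompactSpace Y]

/-- real functions are mapped to real functions -/
theorem real_map (T : C(X, ℂ) →ₗ[ℂ] C(Y, ℂ)) (h1 : T 1 = 1) (hT : ∀ f, ‖T f‖ ≤ ‖f‖) (f : C(X, ℂ))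
    (hf : ∀ x, (f x).im = 0) (y : Y) : (T f y).im = 0 := by
  by_contra hb
  set b : ℝ := (T f y).im with hbdef
  have key : ∀ t : ℝ, (b + t) ^ 2 ≤ ‖f‖ ^ 2 + t ^ 2 := by
    intro t
    have hpos : 0 ≤ ‖f‖ ^ 2 + t ^ 2 := by positivity
    have h2 : ‖f + ((t : ℂ) * I) • (1 : C(X, ℂ))‖ ≤ Real.sqrt (‖f‖ ^ 2 + t ^ 2) := by
      rw [ContinuousMap.norm_le _ (Real.sqrt_nonneg _)]
      intro x
      apply Real.le_sqrt_of_sq_le
      have h3 : (f + ((t : ℂ) * I) • (1 : C(X, ℂ))) x = f x + (t : ℂ) * I := by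
        simp
      rw [h3, ← Complex.normSq_eq_norm_sq, Complex.normSq_apply]
      have h4 : |(f x).re| ≤ ‖f‖ := (Complex.abs_re_le_norm _).trans (f.norm_coe_le_norm x)
      have h5 : (f x).re * (f x).re ≤ ‖f‖ ^ 2 := by
        have := sq_le_sq' (by linarith [(abs_le.1 h4).1]) (abs_le.1 h4).2
        nlinarith
      simp only [Complex.add_re, Complex.mul_re, Complex.ofReal_re, Complex.I_re, mul_zero,
        Complex.ofReal_im, Complex.I_im, mul_one, sub_self, add_zero, Complex.add_im,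
        Complex.mul_im, zero_add, hf x]
      nlinarith
    have h6 : ‖T f y + (t : ℂ) * I‖ ≤ Real.sqrt (‖f‖ ^ 2 + t ^ 2) := by
      have h7 : (T (f + ((t : ℂ) * I) • (1 : C(X, ℂ)))) y = T f y + (t : ℂ) * I := by
        rw [map_add, map_smul, h1]
        simp
      rw [← h7]
      exact (ContinuousMap.norm_coe_le_norm _ y).trans ((hT _).trans h2)
    have h8 : |(T f y + (t : ℂ) * I).im| ≤ Real.sqrt (‖f‖ ^ 2 + t ^ 2) :=
      (Complex.abs_im_le_norm _).trans h6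
    have h9 : (T f y + (t : ℂ) * I).im = b + t := by
      simp [hbdef]
    rw [h9] at h8
    have h10 : |b + t| ^ 2 ≤ Real.sqrt (‖f‖ ^ 2 + t ^ 2) ^ 2 :=
      pow_le_pow_left₀ (abs_nonneg _) h8 2
    rw [sq_abs, Real.sq_sqrt hpos] at h10
    exact h10
  have h := key (‖f‖ ^ 2 / (2 * b))
  have h11 : 2 * b * (‖f‖ ^ 2 / (2 * b)) = ‖f‖ ^ 2 := by
    field_simp
  have h12 : 0 < b ^ 2 := by positivity
  nlinarith

/-- positive functions are mapped to positive functions -/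
theorem pos_map (T : C(X, ℂ) →ₗ[ℂ] C(Y, ℂ)) (h1 : T 1 = 1) (hT : ∀ f, ‖T f‖ ≤ ‖f‖) (f : C(X, ℂ))
    (hf : ∀ x, (f x).im = 0) (hf' : ∀ x, 0 ≤ (f x).re) (y : Y) : 0 ≤ (T f y).re := by
  have h2 : ‖((‖f‖ : ℝ) : ℂ) • (1 : C(X, ℂ)) - f‖ ≤ ‖f‖ := by
    rw [ContinuousMap.norm_le _ (norm_nonneg _)]
    intro x
    have h3 : (((‖f‖ : ℝ) : ℂ) • (1 : C(X, ℂ)) - f) x = ((‖f‖ - (f x).re : ℝ) : ℂ) := by
      have h4 : f x = (((f x).re : ℝ) : ℂ) := by
        apply Complex.ext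
        · simp
        · simp [hf x]
      have h5 : (((‖f‖ : ℝ) : ℂ) • (1 : C(X, ℂ)) - f) x = ((‖f‖ : ℝ) : ℂ) - f x := by
        simp
      rw [h5]
      conv_lhs => rw [h4]
      push_cast
      ring
    rw [h3, Complex.norm_real, Real.norm_eq_abs, abs_le]
    have h4 : |(f x).re| ≤ ‖f‖ := (Complex.abs_re_le_norm _).trans (f.norm_coe_le_norm x)
    have h5 := hf' x
    have h6 := (abs_le.1 h4).2
    constructor <;> linarith
  have h7 : (T (((‖f‖ : ℝ) : ℂ) • (1 : C(X, ℂ)) - f)) y = ((‖f‖ : ℝ) : ℂ) - T f y := by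
    rw [map_sub, map_smul, h1]
    simp
  have h8 : ‖((‖f‖ : ℝ) : ℂ) - T f y‖ ≤ ‖f‖ := by
    rw [← h7]
    exact (ContinuousMap.norm_coe_le_norm _ y).trans ((hT _).trans h2)
  have h9 := (Complex.re_le_norm _).trans h8
  rw [Complex.sub_re, Complex.ofReal_re] at h9
  linarith

/-- Kadison's inequality -/
theorem kadison (T : C(X, ℂ) →ₗ[ℂ] C(Y, ℂ)) (h1 : T 1 = 1) (hT : ∀ f, ‖T f‖ ≤ ‖f‖) (f : C(X, ℂ))
    (hf : ∀ x, (f x).im = 0) (y : Y) : (T f y).re ^ 2 ≤ (T (f * f) y).re := by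
  set c : ℝ := (T f y).re with hc
  have h2 := pos_map T h1 hT ((f - (c : ℂ) • 1) * (f - (c : ℂ) • 1)) (by
    intro x
    simp [hf x]) (by
    intro x
    have : ((f - (c : ℂ) • 1) * (f - (c : ℂ) • 1)) x = (f x - c) * (f x - c) := by simp
    rw [this, Complex.mul_re, Complex.sub_im, hf x, Complex.ofReal_im]
    simp only [sub_zero, mul_zero]
    exact mul_self_nonneg _) y
  have h3 : (f - (c : ℂ) • (1 : C(X, ℂ))) * (f - (c : ℂ) • 1) =
      f * f - (2 * (c : ℂ)) • f + ((c : ℂ) * c) • 1 := by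
    ext x
    simp
    ring
  rw [h3, map_add, map_sub, map_smul, map_smul, h1] at h2
  have h4 : (T (f * f) - (2 * (c : ℂ)) • T f + ((c : ℂ) * c) • (1 : C(Y, ℂ))) y =
      T (f * f) y - 2 * (c : ℂ) * T f y + (c : ℂ) * c := by
    simp
  rw [h4] at h2
  have h5 : (T (f * f) y - 2 * (c : ℂ) * T f y + (c : ℂ) * c).re =
      (T (f * f) y).re - 2 * c * (T f y).re + c * c := by
    simp
  rw [h5, ← hc] at h2
  nlinarith

end one

section two

variable {X Y : Type*} [TopologicalSpace X] [CompactSpace X] [TopologicalSpace Y] [CompactSpace Y]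

theorem sq_map (T : C(X, ℂ) ≃ₗ[ℂ] C(Y, ℂ)) (h1 : T 1 = 1) (hT : ∀ f, ‖T f‖ = ‖f‖) (f : C(X, ℂ))
    (hf : ∀ x, (f x).im = 0) : T (f * f) = T f * T f := by
  have h1' : T.symm 1 = 1 := by rw [← h1, T.symm_apply_apply]
  have hT' : ∀ g, ‖T.symm g‖ = ‖g‖ := by
    intro g
    rw [← hT, T.apply_symm_apply]
  have hTl : ∀ f, ‖(T : C(X, ℂ) →ₗ[ℂ] C(Y, ℂ)) f‖ ≤ ‖f‖ := fun f => (hT f).le
  have hTl' : ∀ f, ‖(T.symm : C(Y, ℂ) →ₗ[ℂ] C(X, ℂ)) f‖ ≤ ‖f‖ := fun f => (hT' f).le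
  have hg : ∀ y, (T f y).im = 0 := real_map (T : C(X, ℂ) →ₗ[ℂ] C(Y, ℂ)) h1 hTl f hf
  have hff : ∀ x, ((f * f) x).im = 0 := by
    intro x
    simp [hf x]
  have hgg : ∀ y, ((T f * T f) y).im = 0 := by
    intro y
    simp [hg y]
  have hk : ∀ y, (T (f * f) y).im = 0 :=
    real_map (T : C(X, ℂ) →ₗ[ℂ] C(Y, ℂ)) h1 hTl (f * f) hff
  set D : C(Y, ℂ) := T (f * f) - T f * T f with hD
  have hDim : ∀ y, (D y).im = 0 := by
    intro y
    rw [hD, ContinuousMap.sub_apply, Complex.sub_im, hk y, hgg y, sub_zero]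
  have hDre : ∀ y, 0 ≤ (D y).re := by
    intro y
    have h2 := kadison (T : C(X, ℂ) →ₗ[ℂ] C(Y, ℂ)) h1 hTl f hf y
    have h3 : (D y).re = (T (f * f) y).re - (T f y).re ^ 2 := by
      rw [hD, ContinuousMap.sub_apply, Complex.sub_re, ContinuousMap.mul_apply, Complex.mul_re,
        hg y]
      ring
    rw [h3]
    have h4 : (T f y).re ^ 2 ≤ (T (f * f) y).re := h2
    linarith
  have hE : T.symm D = 0 := by
    ext x
    have e1 : (T.symm D x).im = 0 :=
      real_map (T.symm : C(Y, ℂ) →ₗ[ℂ] C(X, ℂ)) h1' hTl' D hDim x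
    have e2 : 0 ≤ (T.symm D x).re :=
      pos_map (T.symm : C(Y, ℂ) →ₗ[ℂ] C(X, ℂ)) h1' hTl' D hDim hDre x
    have e3 : (T.symm (T f) x).re ^ 2 ≤ (T.symm (T f * T f) x).re :=
      kadison (T.symm : C(Y, ℂ) →ₗ[ℂ] C(X, ℂ)) h1' hTl' (T f) hg x
    have e4 : T.symm D = f * f - T.symm (T f * T f) := by
      rw [hD, map_sub, T.symm_apply_apply]
    have e5 : (T.symm D x).re = (f x).re ^ 2 - (T.symm (T f * T f) x).re := by
      rw [e4, ContinuousMap.sub_apply, Complex.sub_re, ContinuousMap.mul_apply, Complex.mul_re,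
        hf x]
      ring
    rw [T.symm_apply_apply] at e3
    apply Complex.ext
    · have : (T.symm D x).re = 0 := by linarith
      rw [this]
      rfl
    · rw [e1]
      rfl
  have h5 : D = 0 := by
    have := congrArg T hE
    rwa [T.apply_symm_apply, map_zero] at this
  exact sub_eq_zero.1 h5

theorem mul_map_real (T : C(X, ℂ) ≃ₗ[ℂ] C(Y, ℂ)) (h1 : T 1 = 1) (hT : ∀ f, ‖T f‖ = ‖f‖)
    (f g : C(X, ℂ)) (hf : ∀ x, (f x).im = 0) (hg : ∀ x, (g x).im = 0) :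
    T (f * g) = T f * T g := by
  have h2 := sq_map T h1 hT (f + g) (by
    intro x
    rw [ContinuousMap.add_apply, Complex.add_im, hf x, hg x, add_zero])
  have h3 := sq_map T h1 hT f hf
  have h4 := sq_map T h1 hT g hg
  have h5 : (f + g) * (f + g) = f * f + (2 : ℂ) • (f * g) + g * g := by
    ext x
    simp
    ring
  rw [h5, map_add, map_add, map_add, map_smul, h3, h4] at h2
  have h6 : (2 : ℂ) • T (f * g) = (2 : ℂ) • (T f * T g) := by
    have h7 : (T f + T g) * (T f + T g) = T f * T f + (2 : ℂ) • (T f * T g) + T g * T g := by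
      ext x
      simp
      ring
    rw [h7] at h2
    exact add_left_cancel (add_right_cancel h2)
  have h8 := congrArg (fun z => (2 : ℂ)⁻¹ • z) h6
  simpa [smul_smul] using h8

/-- the real part -/
noncomputable def rp (f : C(X, ℂ)) : C(X, ℂ) := ⟨fun x => ((f x).re : ℂ), by fun_prop⟩

/-- the imaginary part -/
noncomputable def ip (f : C(X, ℂ)) : C(X, ℂ) := ⟨fun x => ((f x).im : ℂ), by fun_prop⟩

theorem rp_add_ip (f : C(X, ℂ)) : rp f + I • ip f = f := by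
  ext x
  show ((f x).re : ℂ) + I * ((f x).im : ℂ) = f x
  rw [mul_comm]
  exact Complex.re_add_im _

theorem mul_map (T : C(X, ℂ) ≃ₗ[ℂ] C(Y, ℂ)) (h1 : T 1 = 1) (hT : ∀ f, ‖T f‖ = ‖f‖)
    (f g : C(X, ℂ)) : T (f * g) = T f * T g := by
  have hr : ∀ f : C(X, ℂ), ∀ x, (rp f x).im = 0 := fun f x => Complex.ofReal_im _
  have hi : ∀ f : C(X, ℂ), ∀ x, (ip f x).im = 0 := fun f x => Complex.ofReal_im _
  have e1 := mul_map_real T h1 hT (rp f) (rp g) (hr f) (hr g)
  have e2 := mul_map_real T h1 hT (rp f) (ip g) (hr f) (hi g)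
  have e3 := mul_map_real T h1 hT (ip f) (rp g) (hi f) (hr g)
  have e4 := mul_map_real T h1 hT (ip f) (ip g) (hi f) (hi g)
  rw [← rp_add_ip f, ← rp_add_ip g]
  simp only [add_mul, mul_add, map_add, map_smul, smul_mul_assoc, mul_smul_comm, e1, e2, e3, e4]

end two

end Pool.Agent.Y182.GL
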