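import Pool.Agent.Y661.GL.Stm
import Pool.Agent.Helper757.GL.Main
import Pool.Agent.Y182.GL.Core

set_option autoImplicit false

/-!
# Project GL (helper661), part MUL (helper182): a unital spectral isometry of C*-algebras is
multiplicative on the centre
-/

universe u v

namespace Pool.Agent.Y182.GL

open Pool.Agent.Helper757.GL

section centre

variable (A : Type*) [CStarAlgebra A]

/-- the centre as a star subalgebra -/
def Z : StarSubalgebra ℂ A :=
  { Subalgebra.center ℂ A with star_mem' := fun hz => star_center hz }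

theorem mem_Z {x : A} : x ∈ Z A ↔ x ∈ Subalgebra.center ℂ A := Iff.rfl

theorem isClosed_Z : IsClosed (Z A : Set A) := by
  have h : (Z A : Set A) = ⋂ b : A, {x : A | b * x = x * b} := by
    ext x
    rw [Set.mem_iInter]
    exact Subalgebra.mem_center_iff
  rw [h]
  exact isClosed_iInter fun b => isClosed_eq (continuous_const.mul continuous_id)
    (continuous_id.mul continuous_const)

noncomputable instance : CommCStarAlgebra (Z A) :=
  letI := StarSubalgebra.cstarAlgebra (Z A) (h_closed := isClosed_Z A)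
  { (inferInstance : CStarAlgebra (Z A)) with
    mul_comm := fun a b => Subtype.ext (Subalgebra.mem_center_iff.1 b.2 a) }

end centre

section norm

variable {A : Type*} [CStarAlgebra A]

theorem norm_eq_of_center {B : Type*} [CStarAlgebra B] {x : A} {y : B}
    (hx : x ∈ Subalgebra.center ℂ A) (hy : y ∈ Subalgebra.center ℂ B)
    (h : spectralRadius ℂ y = spectralRadius ℂ x) : ‖y‖ = ‖x‖ := by
  have : IsStarNormal x := ⟨(Subalgebra.mem_center_iff.1 hx (star x))⟩
  have : IsStarNormal y := ⟨(Subalgebra.mem_center_iff.1 hy (star y))⟩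
  rw [IsStarNormal.spectralRadius_eq_nnnorm, IsStarNormal.spectralRadius_eq_nnnorm] at h
  have h2 : ‖y‖₊ = ‖x‖₊ := by exact_mod_cast h
  exact congrArg NNReal.toReal h2

end norm

/-- the restriction to the centres -/
noncomputable def TZ {A B : Type*} [CStarAlgebra A] [CStarAlgebra B] (T : A ≃ₗ[ℂ] B)
    (h : ∀ x, x ∈ Subalgebra.center ℂ A ↔ T x ∈ Subalgebra.center ℂ B) : Z A ≃ₗ[ℂ] Z B where
  toFun z := ⟨T z, (h z).1 z.2⟩
  invFun w := ⟨T.symm w, (h _).2 (by rw [T.apply_symm_apply]; exact w.2)⟩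
  left_inv z := Subtype.ext (T.symm_apply_apply _)
  right_inv w := Subtype.ext (T.apply_symm_apply _)
  map_add' a b := Subtype.ext (T.map_add _ _)
  map_smul' c a := Subtype.ext (T.map_smul _ _)

theorem main : Pool.Agent.Y661.GL.S_MUL.{u, v} := by
  intro A B _ _ T h1 hr hc z hz w hw
  let GA := gelfandStarTransform (Z A)
  let GB := gelfandStarTransform (Z B)
  let T0 : Z A ≃ₗ[ℂ] Z B := TZ T hc
  let LA : Z A ≃ₗ[ℂ] C(WeakDual.characterSpace ℂ (Z A), ℂ) :=
    { toFun := GA, invFun := GA.symm, left_inv := GA.symm_apply_apply,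
      right_inv := GA.apply_symm_apply, map_add' := map_add GA, map_smul' := map_smul GA }
  let LB : Z B ≃ₗ[ℂ] C(WeakDual.characterSpace ℂ (Z B), ℂ) :=
    { toFun := GB, invFun := GB.symm, left_inv := GB.symm_apply_apply,
      right_inv := GB.apply_symm_apply, map_add' := map_add GB, map_smul' := map_smul GB }
  let T' := (LA.symm.trans T0).trans LB
  have hT0 : ∀ a : Z A, ‖T0 a‖ = ‖a‖ := fun a =>
    norm_eq_of_center (x := (a : A)) (y := T (a : A)) a.2 ((hc a).1 a.2) (hr a)
  have hGA : ∀ a : Z A, ‖GA a‖ = ‖a‖ := fun a =>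
    (AddMonoidHomClass.isometry_iff_norm (WeakDual.gelfandTransform ℂ (Z A))).1
      (gelfandTransform_isometry (Z A)) a
  have hGB : ∀ a : Z B, ‖GB a‖ = ‖a‖ := fun a =>
    (AddMonoidHomClass.isometry_iff_norm (WeakDual.gelfandTransform ℂ (Z B))).1
      (gelfandTransform_isometry (Z B)) a
  have hT' : ∀ f, T' f = GB (T0 (GA.symm f)) := fun f => rfl
  have h1' : T' 1 = 1 := by
    rw [hT', map_one]
    have : T0 1 = 1 := Subtype.ext h1
    rw [this, map_one]
  have hn : ∀ f, ‖T' f‖ = ‖f‖ := by
    intro f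
    rw [hT', hGB, hT0, ← hGA, GA.apply_symm_apply]
  have key := mul_map T' h1' hn (GA ⟨z, hz⟩) (GA ⟨w, hw⟩)
  rw [← map_mul, hT', hT', hT', GA.symm_apply_apply, GA.symm_apply_apply, GA.symm_apply_apply,
    ← map_mul] at key
  have h2 := GB.injective key
  exact congrArg Subtype.val h2

end Pool.Agent.Y182.GL
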